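import Mathlib
import Pool.Agent.Helper74.OKA.Kern

/-!
# Pieces OKA-A01: Cauchy estimate and locally uniform limits in several complex variables
-/

set_option autoImplicit false

open Set Metric Topology MeasureTheory
open scoped Manifold ContDiff

namespace Pool.Agent.Helper78.OKA

variable {G F : Type} [NormedAddCommGroup G] [NormedSpace ℂ G] [FiniteDimensional ℂ G]
  [NormedAddCommGroup F] [NormedSpace ℂ F] [FiniteDimensional ℂ F]

/-- A0c: Cauchy estimate -/
theorem norm_fderiv_le {z : G} {r M : ℝ} (hr : 0 < r) {f : G → F}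
    (hf : DifferentiableOn ℂ f (ball z r)) (hM : ∀ x ∈ ball z r, ‖f x‖ ≤ M) :
    ‖fderiv ℂ f z‖ ≤ M / r := by
  have hM0 : 0 ≤ M := (norm_nonneg _).trans (hM z (mem_ball_self hr))
  refine ContinuousLinearMap.opNorm_le_bound _ (div_nonneg hM0 hr.le) fun v => ?_
  rcases eq_or_ne v 0 with rfl | hv
  · simp
  have hv' : 0 < ‖v‖ := norm_pos_iff.mpr hv
  -- unit vector
  obtain ⟨u, hu, hvu⟩ : ∃ u : G, ‖u‖ = 1 ∧ v = (‖v‖ : ℂ) • u := by
    refine ⟨((‖v‖ : ℂ)⁻¹) • v, ?_, ?_⟩
    · rw [norm_smul, norm_inv, Complex.norm_real, norm_norm, inv_mul_cancel₀ hv'.ne']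
    · rw [smul_smul, mul_inv_cancel₀ (by exact_mod_cast hv'.ne'), one_smul]
  have key : ∀ r' : ℝ, 0 < r' → r' < r → ‖fderiv ℂ f z u‖ ≤ M / r' := by
    intro r' h0 h1
    have hmaps : ∀ t : ℂ, ‖t‖ < r → z + t • u ∈ ball z r := by
      intro t ht
      rw [mem_ball, dist_eq_norm, add_sub_cancel_left, norm_smul, hu, mul_one]
      exact ht
    have hd : ∀ t : ℂ, ‖t‖ < r → DifferentiableAt ℂ (fun t : ℂ => f (z + t • u)) t := by
      intro t ht
      have h2 : DifferentiableAt ℂ f (z + t • u) :=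
        hf.differentiableAt (isOpen_ball.mem_nhds (hmaps t ht))
      exact h2.comp t (by fun_prop)
    have hder : HasDerivAt (fun t : ℂ => f (z + t • u)) (fderiv ℂ f z u) 0 := by
      have h2 : HasFDerivAt f (fderiv ℂ f z) (z + (0 : ℂ) • u) := by
        rw [zero_smul, add_zero]
        exact (hf.differentiableAt (isOpen_ball.mem_nhds (mem_ball_self hr))).hasFDerivAt
      have h3 : HasDerivAt (fun t : ℂ => z + t • u) u 0 := by
        simpa using ((hasDerivAt_id (0 : ℂ)).smul_const u).const_add z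
      exact h2.comp_hasDerivAt 0 h3
    rw [← hder.deriv]
    refine Complex.norm_deriv_le_of_forall_mem_sphere_norm_le h0 ?_ ?_
    · refine DifferentiableOn.diffContOnCl fun t ht => ?_
      refine (hd t ?_).differentiableWithinAt
      have h4 := closure_ball_subset_closedBall ht
      rw [mem_closedBall, dist_zero_right] at h4
      exact h4.trans_lt h1
    · intro t ht
      rw [mem_sphere, dist_zero_right] at ht
      exact hM _ (hmaps t (ht ▸ h1))
  have key2 : ‖fderiv ℂ f z u‖ ≤ M / r := by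
    rw [le_div_iff₀ hr]
    by_contra hcon
    rw [not_le] at hcon
    have hN : 0 < ‖fderiv ℂ f z u‖ := by
      by_contra h0
      have h1 : ‖fderiv ℂ f z u‖ = 0 := le_antisymm (not_lt.mp h0) (norm_nonneg _)
      rw [h1, zero_mul] at hcon
      exact absurd hcon (not_lt.mpr hM0)
    have h1 : M / ‖fderiv ℂ f z u‖ < r := by
      rw [div_lt_iff₀ hN, mul_comm]
      exact hcon
    obtain ⟨r', h2, h3⟩ := exists_between h1
    have h4 : 0 < r' := (div_nonneg hM0 hN.le).trans_lt h2
    have h5 := key r' h4 h3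
    rw [le_div_iff₀ h4] at h5
    rw [div_lt_iff₀ hN] at h2
    linarith [mul_comm r' ‖fderiv ℂ f z u‖]
  calc ‖fderiv ℂ f z v‖ = ‖v‖ * ‖fderiv ℂ f z u‖ := by
        conv_lhs => rw [hvu]
        rw [map_smul, norm_smul, Complex.norm_real, norm_norm]
    _ ≤ ‖v‖ * (M / r) := by gcongr
    _ = M / r * ‖v‖ := mul_comm _ _

/-- A0d: locally uniform limits -/
theorem differentiableOn_of_tendstoLocallyUniformlyOn {U : Set G} (hU : IsOpen U)
    {f : ℕ → G → F} {g : G → F} (hf : ∀ n, DifferentiableOn ℂ (f n) U)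
    (h : TendstoLocallyUniformlyOn f g Filter.atTop U) : DifferentiableOn ℂ g U := by
  have hcF : CompleteSpace F := FiniteDimensional.complete ℂ F
  have hpG : ProperSpace G := FiniteDimensional.proper ℂ G
  intro x hx
  obtain ⟨R, hR, hRU⟩ := Metric.isOpen_iff.mp hU x hx
  set ρ : ℝ := R / 4 with hρdef
  have hρ : 0 < ρ := by positivity
  have hKU : closedBall x (2 * ρ) ⊆ U := by
    refine (closedBall_subset_ball ?_).trans hRU
    rw [hρdef]; linarith
  have hK : TendstoUniformlyOn f g Filter.atTop (closedBall x (2 * ρ)) :=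
    (tendstoLocallyUniformlyOn_iff_forall_isCompact hU).mp h _ hKU (isCompact_closedBall _ _)
  have hsub : ball x ρ ⊆ U := fun y hy =>
    hKU (ball_subset_closedBall (ball_subset_ball (by linarith) hy))
  have hball : ∀ y ∈ ball x ρ, ball y ρ ⊆ closedBall x (2 * ρ) := by
    intro y hy w hw
    rw [mem_ball] at hy hw
    rw [mem_closedBall]
    linarith [dist_triangle w y x]
  have hC := hK.uniformCauchySeqOn
  rw [Metric.uniformCauchySeqOn_iff] at hC
  have hC' : UniformCauchySeqOn (fun n => fderiv ℂ (f n)) Filter.atTop (ball x ρ) := by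
    rw [Metric.uniformCauchySeqOn_iff]
    intro ε hε
    obtain ⟨N, hN⟩ := hC (ε / 2 * ρ) (by positivity)
    refine ⟨N, fun m hm n hn y hy => ?_⟩
    have hyU : U ∈ 𝓝 y := hU.mem_nhds (hsub hy)
    have h1 : fderiv ℂ (f m) y - fderiv ℂ (f n) y = fderiv ℂ (f m - f n) y := by
      rw [fderiv_sub ((hf m).differentiableAt hyU) ((hf n).differentiableAt hyU)]
    rw [dist_eq_norm, h1]
    have h2 : ‖fderiv ℂ (f m - f n) y‖ ≤ (ε / 2 * ρ) / ρ := by
      refine norm_fderiv_le hρ ?_ ?_
      · exact ((hf m).sub (hf n)).mono ((hball y hy).trans hKU)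
      · intro w hw
        have h3 := hN m hm n hn w (hball y hy hw)
        rw [dist_eq_norm] at h3
        exact h3.le
    rw [mul_div_assoc, div_self hρ.ne', mul_one] at h2
    linarith
  have hlim : ∀ y ∈ ball x ρ, ∃ L, Filter.Tendsto (fun n => fderiv ℂ (f n) y) Filter.atTop (𝓝 L) :=
    fun y hy => cauchySeq_tendsto_of_complete (hC'.cauchySeq hy)
  classical
  choose! g' hg' using hlim
  have h4 : TendstoUniformlyOn (fun n => fderiv ℂ (f n)) g' Filter.atTop (ball x ρ) :=
    hC'.tendstoUniformlyOn_of_tendsto hg'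
  have h5 : HasFDerivAt g (g' x) x := by
    refine hasFDerivAt_of_tendstoUniformlyOn (f := f) isOpen_ball h4 ?_ ?_ (mem_ball_self hρ)
    · intro n y hy
      exact ((hf n).differentiableAt (hU.mem_nhds (hsub hy))).hasFDerivAt
    · intro y hy
      exact hK.tendsto_at (ball_subset_closedBall (ball_subset_ball (by linarith) hy))
  exact h5.differentiableAt.differentiableWithinAt

end Pool.Agent.Helper78.OKA
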