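import Mathlib
import Pool.Agent.Helper74.OKA.Kern

/-!
# Piece OKA-A2a: the kernel bound
-/

set_option autoImplicit false

open Set Metric Topology MeasureTheory
open scoped Manifold ContDiff

namespace Pool.Agent.Helper78.OKA

open Pool.Agent.Helper74.OKA

namespace A2a

theorem integrableOn_ball : IntegrableOn (fun ζ : ℂ => ‖ζ‖⁻¹) (ball (0 : ℂ) 1) := by
  have h := (integrableOn_fun_norm_addHaar (E := ℂ) (volume : Measure ℂ)
    (f := fun y : ℝ => y⁻¹) (r := 1)).mpr ?_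
  · exact h
  · rw [Complex.finrank_real_complex]
    have h1 : IntegrableOn (fun _ : ℝ => (1 : ℝ)) (Ioo (0 : ℝ) 1) := by
      simp
    refine h1.congr_fun ?_ measurableSet_Ioo
    intro y hy
    have hy0 : y ≠ 0 := (mem_Ioo.mp hy).1.ne'
    simp [hy0]

theorem Rc_volume (ε R : ℝ) : volume (Rc ε R) < ⊤ := by
  have h : Rc ε R ⊆ ball (0 : ℂ) (|ε| + |R| + 1) := by
    intro w hw
    obtain ⟨h1, h2⟩ := hw
    rw [mem_ball, dist_zero_right]
    have h3 := Complex.norm_le_abs_re_add_abs_im w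
    have h4 : ε / 2 ≤ |ε| := by
      rcases abs_cases ε with ⟨h, _⟩ | ⟨h, _⟩ <;> linarith
    have h5 : R ≤ |R| := le_abs_self R
    linarith
  exact (measure_mono h).trans_lt measure_ball_lt_top

end A2a

/-- A2a -/
theorem kernel_bound (ε R : ℝ) : ∃ K : ℝ, 0 < K ∧ ∀ w : ℂ,
    IntegrableOn (fun ζ : ℂ => ‖ζ - w‖⁻¹) (Rc ε R) ∧ ∫ ζ in Rc ε R, ‖ζ - w‖⁻¹ ≤ K := by
  set C : ℝ := ∫ ζ in ball (0 : ℂ) 1, ‖ζ‖⁻¹ with hC
  have hC0 : 0 ≤ C := integral_nonneg fun _ => by positivity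
  refine ⟨C + volume.real (Rc ε R) + 1, by positivity, fun w => ?_⟩
  -- the majorant
  set φ : ℂ → ℝ := (ball (0 : ℂ) 1).indicator (fun ζ => ‖ζ‖⁻¹) with hφ
  have hφi : Integrable φ := by
    rw [hφ, integrable_indicator_iff measurableSet_ball]
    exact A2a.integrableOn_ball
  have hφ0 : ∀ z, 0 ≤ φ z := fun z => indicator_nonneg (fun _ _ => by positivity) z
  have hφw : Integrable (fun ζ => φ (ζ - w)) := hφi.comp_sub_right w
  have h1 : IntegrableOn (fun _ : ℂ => (1 : ℝ)) (Rc ε R) := by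
    simp [A2a.Rc_volume ε R]
  have hdom : IntegrableOn (fun ζ : ℂ => φ (ζ - w) + 1) (Rc ε R) := hφw.integrableOn.add h1
  have hle : ∀ ζ : ℂ, ‖ζ - w‖⁻¹ ≤ φ (ζ - w) + 1 := by
    intro ζ
    by_cases h : ζ - w ∈ ball (0 : ℂ) 1
    · rw [hφ, indicator_of_mem h]
      linarith
    · rw [hφ, indicator_of_notMem h, zero_add]
      rw [mem_ball, dist_zero_right, not_lt] at h
      exact inv_le_one_of_one_le₀ h
  have hint : IntegrableOn (fun ζ : ℂ => ‖ζ - w‖⁻¹) (Rc ε R) := by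
    refine hdom.mono' ?_ ?_
    · exact (Measurable.inv (by fun_prop)).aestronglyMeasurable
    · refine Filter.Eventually.of_forall fun ζ => ?_
      rw [Real.norm_of_nonneg (by positivity)]
      exact hle ζ
  refine ⟨hint, ?_⟩
  calc ∫ ζ in Rc ε R, ‖ζ - w‖⁻¹ ≤ ∫ ζ in Rc ε R, (φ (ζ - w) + 1) :=
        integral_mono hint hdom hle
    _ = (∫ ζ in Rc ε R, φ (ζ - w)) + ∫ ζ in Rc ε R, (1 : ℝ) := integral_add hφw.integrableOn h1
    _ ≤ (∫ ζ, φ (ζ - w)) + volume.real (Rc ε R) := by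
        refine add_le_add ?_ ?_
        · exact setIntegral_le_integral hφw (Filter.Eventually.of_forall fun ζ => hφ0 _)
        · simp
    _ = C + volume.real (Rc ε R) := by
        rw [integral_sub_right_eq_self φ w, hφ, integral_indicator measurableSet_ball]
    _ ≤ C + volume.real (Rc ε R) + 1 := by linarith

end Pool.Agent.Helper78.OKA
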